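import Mathlib

/-!
# Products with other varieties: statements of the parts
-/

set_option autoImplicit false

namespace Pool.Agent.W528.HE

open Polynomial IntermediateField

/-- Embeddings of the algebraic numbers with given values at a root of unity and at `β`. -/
def EB : Prop :=
  ∀ (E C : Type) [Field E] [CharZero E] [IsAlgClosed E] [Field C] [CharZero C] [IsAlgClosed C]
    (N : ℕ) (μ β : E) (ω : C), 0 < N → IsPrimitiveRoot μ N → IsPrimitiveRoot ω N →
    IsIntegral ℚ β → Irreducible (cyclotomic N ℚ⟮β⟯) →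
    ∀ r : C, aeval r (minpoly ℚ β) = 0 →
    ∃ f : (algebraicClosure ℚ E) →+* C, (∀ x : algebraicClosure ℚ E, (x : E) = μ → f x = ω) ∧
      ∀ x : algebraicClosure ℚ E, (x : E) = β → f x = r

/-- The product formula. -/
def NP : Prop :=
  ∀ (c : ℕ) [Fact c.Prime] (P : ℚ[X]) (q t : ℕ), P.Monic → 0 < P.natDegree → 0 < q →
    (∀ r : ℂ, aeval r P = 0 → ‖r‖ = (q : ℝ) ^ t) →
    (∀ r : PadicAlgCl c, aeval r P = 0 → ‖((q : ℕ) : PadicAlgCl c)‖ ^ t < ‖r‖) → False

end Pool.Agent.W528.HE
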