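import Pool.Agent.W528.HD.Est

/-!
# The p-adic bound for the exponents, in all embeddings
-/

set_option autoImplicit false

namespace Pool.Agent.W528.HE

open Finset Polynomial Pool.Agent.W528.HA Pool.Agent.W528.HB

theorem core_bound {c : ℕ} [Fact c.Prime] {N : ℕ} (hN : 2 ≤ N)
    (κ : Type) [Field κ] [Fintype κ] [CharP κ c] {f : ℕ} (hf : Fintype.card κ = c ^ f)
    {z : κ} (hz : IsPrimitiveRoot z N) {E : Type} [Field E] [CharZero E] [IsAlgClosed E]
    {μ : E} (hμ : IsPrimitiveRoot μ N) :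
    ∃ Ω : PadicAlgCl c, IsPrimitiveRoot Ω N ∧
    ∀ (d K : ℕ) (_ : 0 < K) (j : ℕ) (_ : j.Coprime N)
    (Sm : ∀ (L : Type) [Field L] [Fintype L] [Algebra κ L] (R : Type) [CommRing R], R → R)
    (_ : ∀ (L : Type) [Field L] [Fintype L] [Algebra κ L] (R R' : Type) [CommRing R]
      [CommRing R'] (g : R →+* R') (x : R), g (Sm L R x) = Sm L R' (g x))
    (_ : ∀ (k : Type) [Field k] [CharP k c] (R : Subring (PadicAlgCl c)) (res : R →+* k),
      IsRes c R res → ∀ (n : ℕ), 0 < n → ∀ (L : Type) [Field L] [Fintype L] [Algebra κ L]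
      [CharP L c], Fintype.card L = c ^ (f * n) → ∀ (e : L →+* k) (Ω : PadicAlgCl c),
      IsPrimitiveRoot Ω N → (∃ h : Ω ∈ R, res ⟨Ω, h⟩ = e (algebraMap κ L z)) →
      ‖Sm L (PadicAlgCl c) (Ω ^ j)‖ ^ K
        ≤ ‖((Fintype.card L : ℕ) : PadicAlgCl c)‖ ^ (d * K) * ‖((c : ℕ) : PadicAlgCl c)‖ ^ n)
    (S : Finset E) (mult : E → ℕ) (_ : ∀ a ∈ S, a ≠ 0 ∧ 0 < mult a)
    (_ : ∀ (L : Type) [Field L] [Fintype L] [Algebra κ L],
      ∑ a ∈ S, (mult a : E) * a ^ Module.finrank κ L = Sm L E μ),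
    (∀ a ∈ S, IsAlgebraic ℚ a) ∧
    ∀ fe : (algebraicClosure ℚ E) →+* PadicAlgCl c,
      (∀ x : algebraicClosure ℚ E, (x : E) = μ → fe x = Ω ^ j) →
      ∀ x : algebraicClosure ℚ E, (x : E) ∈ S →
        ‖fe x‖ < ‖((Fintype.card κ : ℕ) : PadicAlgCl c)‖ ^ d := by
  classical
  have hTP : TP := Pool.Agent.W999.HB.TP.main
  have hAL : AL := Pool.Agent.W782.HA.AL.main
  have hBD : BD := Pool.Agent.W605.HA.BD.main
  have hc2 : 2 ≤ c := (Fact.out : c.Prime).two_le
  have hf0 : 0 < f := by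
    rcases Nat.eq_zero_or_pos f with h | h
    · rw [h, pow_zero] at hf
      have := Fintype.one_lt_card (α := κ)
      omega
    · exact h
  have hNf : N ∣ c ^ f - 1 := by
    rw [← hf]
    exact dvd_card_of_root hz (by omega)
  -- the field of values
  have hμalg : IsAlgebraic ℚ μ := by
    have h1 : IsIntegral ℤ μ := hμ.isIntegral (by omega)
    exact (h1.tower_top (A := ℚ)).isAlgebraic
  have hext : ∀ n, 1 ≤ n → ∃ (L : Type) (_ : Field L) (_ : Fintype L) (_ : Algebra κ L),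
      Module.finrank κ L = n := by
    intro n hn
    have : NeZero n := ⟨by omega⟩
    let _ : Fintype (FiniteField.Extension κ c n) := Fintype.ofFinite _
    exact ⟨FiniteField.Extension κ c n, inferInstance, inferInstance, inferInstance,
      FiniteField.finrank_extension κ c n⟩
  -- the residue field and the root of unity
  obtain ⟨k, _, R, res, _, _, hR⟩ := hTP c
  have hNk : (N : k) ≠ 0 := natCast_ne_zero_of_dvd hNf hf0
  have _ : Algebra (ZMod c) κ := ZMod.algebra κ c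
  have _ : Algebra (ZMod c) k := ZMod.algebra k c
  have hκk : Nonempty (κ →ₐ[ZMod c] k) := ⟨IsAlgClosed.lift⟩
  obtain ⟨eκ⟩ := hκk
  obtain ⟨Ω0, hΩ0⟩ : ∃ ζ : PadicAlgCl c, IsPrimitiveRoot ζ N := by
    have : NeZero ((N : ℕ) : PadicAlgCl c) := ⟨by exact_mod_cast (by omega : N ≠ 0)⟩
    exact HasEnoughRootsOfUnity.exists_primitiveRoot (PadicAlgCl c) N
  have hΩ0R : Ω0 ∈ R := (hR.1 Ω0).mpr (norm_pow_one (by omega) hΩ0.pow_eq_one).le
  have hres0 : IsPrimitiveRoot (res ⟨Ω0, hΩ0R⟩) N := by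
    have : NeZero ((N : ℕ) : k) := ⟨hNk⟩
    rw [← Polynomial.isRoot_cyclotomic_iff]
    have h1 : (Polynomial.cyclotomic N R).IsRoot ⟨Ω0, hΩ0R⟩ := by
      have h2 : (Polynomial.cyclotomic N (PadicAlgCl c)).IsRoot Ω0 :=
        hΩ0.isRoot_cyclotomic (by omega)
      rw [Polynomial.IsRoot.def] at h2 ⊢
      apply Subtype.ext
      have h3 := Polynomial.eval₂_hom R.subtype (p := Polynomial.cyclotomic N R) ⟨Ω0, hΩ0R⟩
      rw [← Polynomial.eval_map, Polynomial.map_cyclotomic] at h3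
      change R.subtype _ = R.subtype 0
      rw [← h3, map_zero]
      exact h2
    have h2 := h1.map (f := res)
    rwa [Polynomial.map_cyclotomic] at h2
  obtain ⟨i, hiN, hi⟩ : ∃ i < N, res ⟨Ω0, hΩ0R⟩ ^ i = eκ z := by
    have : NeZero N := ⟨by omega⟩
    exact hres0.eq_pow_of_pow_eq_one (by rw [← map_pow, hz.pow_eq_one, map_one])
  have hico : i.Coprime N := by
    have h1 : IsPrimitiveRoot (res ⟨Ω0, hΩ0R⟩ ^ i) N := by
      rw [hi]
      exact hz.map_of_injective eκ.injective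
    exact (hres0.pow_iff_coprime (by omega) i).mp h1
  set Ω := Ω0 ^ i with hΩdef
  have hΩ : IsPrimitiveRoot Ω N := hΩ0.pow_of_coprime i hico
  have hΩR : Ω ∈ R := R.pow_mem hΩ0R i
  have hΩz : res ⟨Ω, hΩR⟩ = eκ z := by
    rw [← hi, ← map_pow]
    rfl
  refine ⟨Ω, hΩ, ?_⟩
  intro d K hK j hj Sm hSm hest S mult hS hA
  have hpoly : ∀ n, 1 ≤ n → ∃ g : ℚ[X], aeval μ g = ∑ a ∈ S, (mult a : E) * a ^ n := by
    intro n hn
    obtain ⟨L, _, _, _, hL⟩ := hext n hn
    have h1 := hA L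
    rw [hL] at h1
    refine ⟨Sm L ℚ[X] X, ?_⟩
    have h3 := hSm L ℚ[X] E ((aeval μ : ℚ[X] →ₐ[ℚ] E) : ℚ[X] →+* E) X
    rw [RingHom.coe_coe, aeval_X] at h3
    rw [h3, ← h1]
  have halg := hAL E μ hμalg S mult hS hpoly
  refine ⟨halg, ?_⟩
  intro fe hfe y hyS
  have hμK : μ ∈ algebraicClosure ℚ E := (mem_algebraicClosure_iff).mpr hμalg
  set μK : algebraicClosure ℚ E := ⟨μ, hμK⟩ with hμKdef
  have hfμ : fe μK = Ω ^ j := hfe μK rfl
  set g : E → PadicAlgCl c := fun x => if h : x ∈ algebraicClosure ℚ E then fe ⟨x, h⟩ else 0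
    with hgdef
  have hmem : ∀ x ∈ S, x ∈ algebraicClosure ℚ E := fun x hx =>
    (mem_algebraicClosure_iff).mpr (halg x hx)
  have hg : ∀ (x : E) (hx : x ∈ algebraicClosure ℚ E), g x = fe ⟨x, hx⟩ := by
    intro x hx
    simp only [hgdef]
    rw [dif_pos hx]
  have hinj : Set.InjOn g (S : Set E) := by
    intro x hx y hy hxy
    rw [hg x (hmem x hx), hg y (hmem y hy)] at hxy
    have := fe.injective hxy
    exact congrArg Subtype.val this
  set ρ := ‖((c : ℕ) : PadicAlgCl c)‖ with hρ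
  have hρ0 : 0 < ρ := by
    rw [hρ, norm_pos_iff]
    exact_mod_cast (Fact.out : c.Prime).ne_zero
  have hρ1 : ρ < 1 := by
    have h1 : algebraMap ℚ_[c] (PadicAlgCl c) ((c : ℕ) : ℚ_[c]) = ((c : ℕ) : PadicAlgCl c) :=
      map_natCast _ _
    rw [hρ, ← h1, PadicAlgCl.norm_extends, Padic.norm_natCast_lt_one_iff]
  set ρN := ρ ^ ((K : ℝ)⁻¹) with hρN
  have hρN0 : 0 < ρN := Real.rpow_pos_of_pos hρ0 _
  have hρN1 : ρN < 1 := Real.rpow_lt_one hρ0.le hρ1 (by positivity)
  have hρNN : ρN ^ K = ρ := by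
    rw [hρN, ← Real.rpow_natCast, ← Real.rpow_mul hρ0.le, inv_mul_cancel₀ (by positivity),
      Real.rpow_one]
  -- the bound
  set Q0 := ‖((Fintype.card κ : ℕ) : PadicAlgCl c)‖ with hQ0
  have hQ0pos : 0 < Q0 := norm_card_pos (c := c) (L := κ)
  have hbound : ∀ n, 1 ≤ n → ‖∑ x ∈ S, (mult x : PadicAlgCl c) * g x ^ n‖ ≤ (Q0 ^ d * ρN) ^ n := by
    intro n hn
    obtain ⟨L, _, _, _, hL⟩ := hext n hn
    have : CharP L c := charP_of_injective_algebraMap (algebraMap κ L).injective c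
    have hcardL' : Fintype.card L = Fintype.card κ ^ n := by
      rw [← hL]
      exact Module.card_eq_pow_finrank
    have hcardL : Fintype.card L = c ^ (f * n) := by
      rw [pow_mul, ← hf, hcardL']
    -- the embedding of L
    obtain ⟨eL, heL⟩ : ∃ eL : L →+* k, ∀ y : κ, eL (algebraMap κ L y) = eκ y := by
      letI : Algebra κ k := (eκ : κ →+* k).toAlgebra
      have : Module.Finite κ L := .of_finite
      exact ⟨((IsAlgClosed.lift : L →ₐ[κ] k) : L →+* k), fun y =>
        (IsAlgClosed.lift : L →ₐ[κ] k).commutes y⟩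
    have h1 := hA L
    rw [hL] at h1
    have hest1 := hest k R res hR n (by omega) L hcardL eL Ω hΩ ⟨hΩR, by rw [hΩz, heL]⟩
    -- the equation in the field of algebraic numbers
    have h2 : ∑ x ∈ S.attach, ((mult x.1 : ℕ) : algebraicClosure ℚ E)
          * (⟨x.1, hmem x.1 x.2⟩ : algebraicClosure ℚ E) ^ n
        = Sm L (algebraicClosure ℚ E) μK := by
      apply (algebraMap (algebraicClosure ℚ E) E).injective
      rw [hSm L _ E (algebraMap (algebraicClosure ℚ E) E), map_sum]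
      have h3 : ∑ x ∈ S.attach, algebraMap (algebraicClosure ℚ E) E
          (((mult x.1 : ℕ) : algebraicClosure ℚ E)
          * (⟨x.1, hmem x.1 x.2⟩ : algebraicClosure ℚ E) ^ n)
          = ∑ x ∈ S, (mult x : E) * x ^ n := by
        rw [← sum_attach S]
        refine sum_congr rfl fun x _ => ?_
        rw [map_mul, map_pow, map_natCast]
        rfl
      rw [h3, h1]
      rfl
    have h4 := congrArg fe h2
    rw [hSm L _ _ fe, hfμ, map_sum] at h4
    have h5 : ∑ x ∈ S.attach, fe (((mult x.1 : ℕ) : algebraicClosure ℚ E)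
          * (⟨x.1, hmem x.1 x.2⟩ : algebraicClosure ℚ E) ^ n)
        = ∑ x ∈ S, (mult x : PadicAlgCl c) * g x ^ n := by
      rw [← sum_attach S]
      refine sum_congr rfl fun x _ => ?_
      rw [map_mul, map_pow, map_natCast, hg x.1 (hmem x.1 x.2)]
    rw [h5] at h4
    rw [← h4] at hest1
    have hcn : ‖((Fintype.card L : ℕ) : PadicAlgCl c)‖ = Q0 ^ n := by
      rw [hcardL', hQ0]
      push_cast
      rw [norm_pow]
    rw [hcn] at hest1
    have h8 : ‖∑ x ∈ S, (mult x : PadicAlgCl c) * g x ^ n‖ ^ K ≤ ((Q0 ^ d * ρN) ^ n) ^ K := by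
      refine hest1.trans (le_of_eq ?_)
      rw [← hρNN, mul_pow, mul_pow]
      congr 1
      · rw [← pow_mul, ← pow_mul, ← pow_mul]
        congr 1
        ring
      · rw [← pow_mul, ← pow_mul, mul_comm]
    exact le_of_pow_le_pow_left₀ (by omega) (by positivity) h8
  -- apply the boundedness lemma
  have heS : (y : E) ∈ S := hyS
  have hfin := hBD (PadicAlgCl c) (S.image g) (fun y => ∑ x ∈ S with g x = y, mult x)
    (Q0 ^ d * ρN) (by positivity) (by
      intro y hy
      obtain ⟨x, hx, rfl⟩ := mem_image.mp hy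
      refine ⟨?_, ?_⟩
      · rw [hg x (hmem x hx)]
        intro h
        have h1 : (⟨x, hmem x hx⟩ : algebraicClosure ℚ E) = 0 := by
          apply fe.injective
          rw [h, map_zero]
        exact (hS x hx).1 (congrArg Subtype.val h1)
      · apply sum_pos (fun x hx => (hS x (mem_filter.mp hx).1).2)
        exact ⟨x, mem_filter.mpr ⟨hx, rfl⟩⟩) (by
      intro n hn
      have h1 : ∑ y ∈ S.image g, ((∑ x ∈ S with g x = y, mult x : ℕ) : PadicAlgCl c) * y ^ n
          = ∑ x ∈ S, (mult x : PadicAlgCl c) * g x ^ n := by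
        rw [sum_image hinj]
        refine sum_congr rfl fun x hx => ?_
        have h2 : (S.filter fun x' => g x' = g x) = {x} := by
          ext x'
          rw [mem_filter, mem_singleton]
          constructor
          · rintro ⟨h3, h4⟩
            exact hinj h3 hx h4
          · rintro rfl
            exact ⟨hx, rfl⟩
        rw [h2, sum_singleton]
      rw [h1]
      exact hbound n hn) (g y) (mem_image_of_mem g heS)
  have h9 : Q0 ^ d * ρN < Q0 ^ d := by
    have := mul_lt_mul_of_pos_left hρN1 (pow_pos hQ0pos d)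
    rwa [mul_one] at this
  have h10 : g y = fe y := by rw [hg y y.2]
  rw [h10] at hfin
  exact lt_of_le_of_lt hfin h9

end Pool.Agent.W528.HE
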