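import Pool.Agent.W528.HE.Bound
import Pool.Agent.W528.HE.Stm

/-!
# Products of surfaces with other varieties
-/

set_option autoImplicit false

namespace Pool.Agent.W528.HE

open Finset Polynomial IntermediateField Pool.Agent.W528.HA Pool.Agent.W528.HB Pool.Agent.W528.HD

/-- The elements of `A` are the eigenvalues of Frobenius on the part of the second cohomology of
the surface `y ^ N = ∏ (l_k x + f_k(t)) ^ e_k` on which the character group acts by the standard
character: for every finite extension `L` of `κ`, of degree `n`, the sum of the `x ^ n` is the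
character sum `gSum`. -/
def IsEig (κ : Type) [Field κ] [Fintype κ] {E : Type} [Field E] (N : ℕ) {ι : Type} [Fintype ι]
    (l : ι → κ) (f : ι → κ[X]) (e : ι → ℕ) (z : κ) (μ : E) (A : Multiset E) : Prop :=
  ∀ (L : Type) [Field L] [Fintype L] [Algebra κ L],
    (A.map fun x => x ^ Module.finrank κ L).sum
      = gSum L E N (fun i => algebraMap κ L (l i)) (fun i => (f i).map (algebraMap κ L)) e 0
        (algebraMap κ L z) μ

section

variable {c : ℕ} [Fact c.Prime]

lemma sum_filter_ne {E : Type} [Field E] [DecidableEq E] (A : Multiset E) (n : ℕ) (hn : 1 ≤ n) :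
    ∑ y ∈ (A.filter (· ≠ 0)).toFinset, (((A.filter (· ≠ 0)).count y : ℕ) : E) * y ^ n
      = (A.map fun x => x ^ n).sum := by
  have h1 : ((A.filter (· ≠ 0)).map fun y => y ^ n).sum
      = ∑ y ∈ (A.filter (· ≠ 0)).toFinset, (((A.filter (· ≠ 0)).count y : ℕ) : E) * y ^ n := by
    rw [Finset.sum_multiset_map_count]
    exact sum_congr rfl fun y _ => by rw [nsmul_eq_mul]
  have h3 : ∀ A' : Multiset E, ((A'.filter (· ≠ 0)).map (fun x => x ^ n)).sum
      = (A'.map fun x => x ^ n).sum := by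
    intro A'
    induction A' using Multiset.induction_on with
    | empty => simp
    | cons y A' ih =>
      rw [Multiset.map_cons, Multiset.sum_cons, ← ih]
      by_cases hy : y = 0
      · rw [Multiset.filter_cons_of_neg (p := fun x : E => x ≠ 0) A' (fun h => h hy), hy,
          zero_pow (by omega), zero_add]
      · rw [Multiset.filter_cons_of_pos (p := fun x : E => x ≠ 0) A' hy, Multiset.map_cons,
          Multiset.sum_cons]
  rw [← h3 A]
  exact h1.symm

theorem main (hEB : EB) (hNP : NP) (hGN : GN) (hONE : ONE) (hGE : GE) {N : ℕ} (hN : 2 ≤ N)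
    (κ : Type) [Field κ] [Fintype κ] [CharP κ c] {F : ℕ} (hF : Fintype.card κ = c ^ F)
    {z : κ} (hz : IsPrimitiveRoot z N) {E : Type} [Field E] [CharZero E] [IsAlgClosed E]
    {μ : E} (hμ : IsPrimitiveRoot μ N)
    {σ : Type} [Fintype σ] [Nonempty σ] (ι : σ → Type) [∀ i, Fintype (ι i)]
    (l : ∀ i, ι i → κ) (f : ∀ i, ι i → κ[X]) (D : σ → ℕ) (hD : ∀ i, 1 ≤ D i)
    (hf : ∀ i k, (f i k).natDegree ≤ D i) (e : ∀ i, ι i → ℕ) (he : ∀ i k, e i k < N)
    {j : ℕ} (hj : j.Coprime N)
    (hjd : ∀ i, D i * ∑ k, ∑ s ∈ range F, (j * e i k * c ^ s) % N < F * N)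
    (A : σ → Multiset E) (hA : ∀ i, IsEig κ N (l i) (f i) (e i) z μ (A i))
    (β : E) (hβ : IsIntegral ℚ β) (t : ℕ)
    (hβt : ∀ r : ℂ, aeval r (minpoly ℚ β) = 0 → ‖r‖ = (Fintype.card κ : ℝ) ^ t)
    (hirr : Irreducible (cyclotomic N ℚ⟮β⟯))
    (α : σ → E) (hα : ∀ i, α i ∈ A i) (M : ℕ) (hM : 0 < M) :
    ((∏ i, α i) * β) ^ M ≠ ((Fintype.card κ : E) ^ (Fintype.card σ + t)) ^ M := by
  classical
  intro heq
  have hF0 : 0 < F := by
    rcases Nat.eq_zero_or_pos F with h | h
    · rw [h, pow_zero] at hF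
      have := Fintype.one_lt_card (α := κ)
      omega
    · exact h
  have hNf : N ∣ c ^ F - 1 := by
    rw [← hF]
    exact dvd_card_of_root hz (by omega)
  have hq : (Fintype.card κ : E) ≠ 0 := by exact_mod_cast Fintype.card_ne_zero
  have hne : (∏ i, α i) * β ≠ 0 := by
    intro h
    rw [h, zero_pow hM.ne'] at heq
    exact pow_ne_zero M (pow_ne_zero _ hq) heq.symm
  have hα0 : ∀ i, α i ≠ 0 := fun i => prod_ne_zero_iff.mp (left_ne_zero_of_mul hne) i (mem_univ i)
  obtain ⟨Ω, hΩ, hcore⟩ := core_bound hN κ hF hz hμ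
  have hi : ∀ i, IsAlgebraic ℚ (α i) ∧
      ∀ fe : (algebraicClosure ℚ E) →+* PadicAlgCl c,
      (∀ x : algebraicClosure ℚ E, (x : E) = μ → fe x = Ω ^ j) →
      ∀ x : algebraicClosure ℚ E, (x : E) = α i →
        ‖fe x‖ < ‖((Fintype.card κ : ℕ) : PadicAlgCl c)‖ := by
    intro i
    set B : Multiset E := (A i).filter (· ≠ 0) with hB
    have hmem : α i ∈ B.toFinset := by
      rw [Multiset.mem_toFinset, hB, Multiset.mem_filter]
      exact ⟨hα i, hα0 i⟩
    obtain ⟨h1, h2⟩ := hcore 1 (D i * N) (Nat.mul_pos (by have := hD i; omega) (by omega)) j hj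
      (fun L _ _ _ R _ ω => gSum L R N (fun k => algebraMap κ L (l i k))
        (fun k => (f i k).map (algebraMap κ L)) (e i) 0 (algebraMap κ L z) ω)
      (fun L _ _ _ R R' _ _ g y => map_gSum g N _ _ (e i) 0 _ y)
      (by
        intro k _ _ R res hR n hn L _ _ _ _ hcard eL Ω hΩ hΩz
        refine g_est hGN hONE hGE hR hN hF0 hn hNf L hcard eL
          (hz.map_of_injective (algebraMap κ L).injective) hΩ hΩz (hD i) _ _
          (fun k => (natDegree_map_le).trans (hf i k)) (e i) (he i) 0 (by omega) hj ?_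
        simpa using hjd i)
      B.toFinset (fun y => B.count y)
      (by
        intro y hy
        rw [Multiset.mem_toFinset] at hy
        refine ⟨?_, Multiset.count_pos.mpr hy⟩
        rw [hB, Multiset.mem_filter] at hy
        exact hy.2)
      (by
        intro L _ _ _
        have hL : 1 ≤ Module.finrank κ L := by
          have : Module.Finite κ L := .of_finite
          exact Module.finrank_pos
        have h3 := hA i L
        rw [← h3]
        exact sum_filter_ne (A i) _ hL)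
    refine ⟨h1 _ hmem, ?_⟩
    intro fe hfe x hx
    have := h2 fe hfe x (by rw [hx]; exact hmem)
    rwa [pow_one] at this
  set Q0 := ‖((Fintype.card κ : ℕ) : PadicAlgCl c)‖ with hQ0
  have hQ0pos : 0 < Q0 := norm_card_pos (c := c) (L := κ)
  refine hNP c (minpoly ℚ β) (Fintype.card κ) t (minpoly.monic hβ) (minpoly.natDegree_pos hβ)
    Fintype.card_pos hβt ?_
  intro r hr
  have hΩj : IsPrimitiveRoot (Ω ^ j) N := hΩ.pow_of_coprime j hj
  obtain ⟨fe, hfe, hfβ⟩ := hEB E (PadicAlgCl c) N μ β (Ω ^ j) (by omega) hμ hΩj hβ hirr r hr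
  have hmemα : ∀ i, α i ∈ algebraicClosure ℚ E := fun i =>
    (mem_algebraicClosure_iff).mpr (hi i).1
  have hmemβ : β ∈ algebraicClosure ℚ E := (mem_algebraicClosure_iff).mpr hβ.isAlgebraic
  have h1 : ((∏ i, (⟨α i, hmemα i⟩ : algebraicClosure ℚ E)) * ⟨β, hmemβ⟩) ^ M
      = (((Fintype.card κ : ℕ) : algebraicClosure ℚ E) ^ (Fintype.card σ + t)) ^ M := by
    apply (algebraMap (algebraicClosure ℚ E) E).injective
    rw [map_pow, map_mul, map_prod, map_pow, map_pow, map_natCast]
    exact heq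
  have hβr : fe ⟨β, hmemβ⟩ = r := hfβ ⟨β, hmemβ⟩ rfl
  have h2a : ((∏ i, fe (⟨α i, hmemα i⟩ : algebraicClosure ℚ E)) * r) ^ M
      = (((Fintype.card κ : ℕ) : PadicAlgCl c) ^ (Fintype.card σ + t)) ^ M := by
    have h := congrArg fe h1
    rw [map_pow, map_mul, map_prod, map_pow, map_pow, map_natCast, hβr] at h
    exact h
  have h2 : ((∏ i, ‖fe (⟨α i, hmemα i⟩ : algebraicClosure ℚ E)‖) * ‖r‖) ^ M
      = (Q0 ^ (Fintype.card σ + t)) ^ M := by
    have h := congrArg norm h2a
    rw [norm_pow, norm_mul, norm_prod, norm_pow, norm_pow] at h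
    exact h
  have h3 : (∏ i, ‖fe (⟨α i, hmemα i⟩ : algebraicClosure ℚ E)‖) * ‖r‖
      = Q0 ^ (Fintype.card σ + t) :=
    (pow_left_inj₀ (mul_nonneg (prod_nonneg fun i _ => norm_nonneg _) (norm_nonneg _))
      (pow_nonneg hQ0pos.le _) hM.ne').mp h2
  have h4 : ∏ i, ‖fe (⟨α i, hmemα i⟩ : algebraicClosure ℚ E)‖ < Q0 ^ Fintype.card σ := by
    rw [← Finset.card_univ, ← Finset.prod_const]
    apply Finset.prod_lt_prod_of_nonempty
    · intro i _
      rw [norm_pos_iff]
      intro h
      apply hα0 i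
      have h5 : (⟨α i, hmemα i⟩ : algebraicClosure ℚ E) = 0 := by
        apply fe.injective
        rw [h, map_zero]
      exact congrArg Subtype.val h5
    · intro i _
      exact (hi i).2 fe hfe _ rfl
    · exact univ_nonempty
  have hr0 : 0 < ‖r‖ := by
    rw [norm_pos_iff]
    intro h
    rw [h, norm_zero, mul_zero] at h3
    exact (pow_pos hQ0pos _).ne h3
  rw [pow_add] at h3
  have h5 := mul_lt_mul_of_pos_right h4 hr0
  rw [h3] at h5
  exact lt_of_mul_lt_mul_left h5 (pow_nonneg hQ0pos.le _)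

end

end Pool.Agent.W528.HE
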